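import Pool.Agent.Lib.MP_5a9905_co_NC.Main
import Pool.Agent.Lib.MP_5a9905_co_NC.Saus2

/-!
# The sausage conjecture of L. Fejes Tóth in every dimension `d ≥ 5`

For every `d ≥ 5` and `k ≥ 1`: if a convex body `C` of `ℝ^d` contains `k` unit balls with pairwise
disjoint interiors, then `V(C) ≥ κ_d + 2 (k - 1) κ_{d-1}`, and the convex hull of `k` unit balls
with centres `0, 2e, …, 2(k-1)e` has exactly this volume.
-/

set_option autoImplicit false

open MeasureTheory

namespace Pool.Agent.Results.MP_5a9905_co.SausageConjecture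

theorem result :
    ∀ d : ℕ, 5 ≤ d → ∀ k : ℕ, 1 ≤ k →
      (∀ (b : Fin k → EuclideanSpace ℝ (Fin d)) (C : Set (EuclideanSpace ℝ (Fin d))),
        Convex ℝ C → IsCompact C → (∀ i, Metric.closedBall (b i) (1 : ℝ) ⊆ C) →
        (∀ i j, i ≠ j → Disjoint (Metric.ball (b i) (1 : ℝ)) (Metric.ball (b j) (1 : ℝ))) →
        volume.real (Metric.closedBall (0 : EuclideanSpace ℝ (Fin d)) 1)
          + 2 * ((k : ℝ) - 1) * volume.real (Metric.closedBall (0 : EuclideanSpace ℝ (Fin (d - 1))) 1)
            ≤ volume.real C) ∧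
      (∀ e : EuclideanSpace ℝ (Fin d), ‖e‖ = 1 →
        volume.real (convexHull ℝ
            (⋃ i : Fin k, Metric.closedBall ((2 * ((i : ℕ) : ℝ)) • e) (1 : ℝ)))
          = volume.real (Metric.closedBall (0 : EuclideanSpace ℝ (Fin d)) 1)
            + 2 * ((k : ℝ) - 1)
              * volume.real (Metric.closedBall (0 : EuclideanSpace ℝ (Fin (d - 1))) 1)) := by
  intro d hd k hk
  obtain ⟨n, rfl⟩ : ∃ n, d = n + 1 := ⟨d - 1, by omega⟩
  obtain ⟨j, rfl⟩ : ∃ j, k = j + 1 := ⟨k - 1, by omega⟩
  have hk0 : 0 ≤ Pool.Agent.Saus.kap (n + 1) := measureReal_nonneg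
  have hk1 : 0 ≤ Pool.Agent.Saus.kap n := measureReal_nonneg
  have hval : ∀ e : EuclideanSpace ℝ (Fin (n + 1)), ‖e‖ = 1 →
      volume (convexHull ℝ
        (⋃ i : Fin (j + 1), Metric.closedBall ((2 * ((i : ℕ) : ℝ)) • e) (1 : ℝ)))
      = ENNReal.ofReal (Pool.Agent.Saus.kap (n + 1) + 2 * j * Pool.Agent.Saus.kap n) :=
    fun e he => Pool.Agent.SausN.sausage_volume n j e he
  have hcast : (((j + 1 : ℕ) : ℝ) - 1) = j := by push_cast; ring
  have hsub : n + 1 - 1 = n := rfl
  rw [hcast]
  constructor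
  · intro b C hC hCc hb hdis
    set e : EuclideanSpace ℝ (Fin (n + 1)) := EuclideanSpace.single 0 1 with he
    have he1 : ‖e‖ = 1 := by simp [he]
    have hdist : ∀ i i' : Fin (j + 1), i ≠ i' → 2 ≤ dist (b i) (b i') := by
      intro i i' hne
      by_contra hlt
      push Not at hlt
      have hmid : midpoint ℝ (b i) (b i') ∈ Metric.ball (b i) (1 : ℝ) ∩ Metric.ball (b i') 1 := by
        constructor
        · rw [Metric.mem_ball, dist_midpoint_left]
          norm_num
          linarith
        · rw [Metric.mem_ball, dist_midpoint_right]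
          norm_num
          linarith
      exact Set.disjoint_left.1 (hdis i i' hne) hmid.1 hmid.2
    have h1 := Pool.Agent.SausN.sausage_conjecture (n + 1) hd (j + 1) b hdist e he1
    rw [hval e he1] at h1
    have h2 : volume (convexHull ℝ (⋃ i : Fin (j + 1), Metric.closedBall (b i) (1 : ℝ)))
        ≤ volume C := measure_mono (convexHull_min (Set.iUnion_subset hb) hC)
    have h3 := h1.trans h2
    exact (ENNReal.ofReal_le_iff_le_toReal hCc.measure_lt_top.ne).1 h3
  · intro e he1
    rw [Measure.real, hval e he1, ENNReal.toReal_ofReal (by positivity)]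
    rfl

end Pool.Agent.Results.MP_5a9905_co.SausageConjecture
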